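import Mathlib

/-! The analytic inverse function theorem in a convenient form. -/

open Filter Topology Set Function

namespace Pool.Agent.Lib.SCV

variable {X Y P : Type*} [NormedAddCommGroup X] [NormedSpace ℂ X] [FiniteDimensional ℂ X]
  [NormedAddCommGroup Y] [NormedSpace ℂ Y] [FiniteDimensional ℂ Y]
  [NormedAddCommGroup P] [NormedSpace ℂ P] [FiniteDimensional ℂ P]

theorem exists_local_inverse {Γ : X → Y} {a : X} (hΓ : AnalyticAt ℂ Γ a)
    (hb : Bijective (fderiv ℂ Γ a)) :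
    ∃ χ : Y → X, AnalyticAt ℂ χ (Γ a) ∧ χ (Γ a) = a ∧ (∀ᶠ x in 𝓝 a, χ (Γ x) = x) ∧
      (∀ᶠ y in 𝓝 (Γ a), Γ (χ y) = y) := by
  have : CompleteSpace X := FiniteDimensional.complete ℂ X
  have : CompleteSpace Y := FiniteDimensional.complete ℂ Y
  let L : X ≃L[ℂ] Y := (LinearEquiv.ofBijective (fderiv ℂ Γ a : X →ₗ[ℂ] Y) hb).toContinuousLinearEquiv
  have hL : (L : X →L[ℂ] Y) = fderiv ℂ Γ a := by ext x; rfl
  have hs : HasStrictFDerivAt Γ (L : X →L[ℂ] Y) a := hL ▸ hΓ.hasStrictFDerivAt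
  refine ⟨hs.localInverse Γ L a, ?_, hs.localInverse_apply_image, hs.eventually_left_inverse,
    hs.eventually_right_inverse⟩
  have := (hs.toOpenPartialHomeomorph Γ).analyticAt_symm' (i := L)
    hs.mem_toOpenPartialHomeomorph_source hΓ hL.symm
  exact this

/-- Inverse in the first variable, depending analytically on the parameter. -/
theorem exists_param_inverse {Φ : X × P → Y} (hΦ : AnalyticAt ℂ Φ 0) (h0 : Φ 0 = 0)
    (hb : Bijective fun v : X => fderiv ℂ Φ 0 (v, 0)) :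
    ∃ χ : Y × P → X, AnalyticAt ℂ χ 0 ∧ χ 0 = 0 ∧
      (∀ᶠ q in 𝓝 (0 : X × P), χ (Φ q, q.2) = q.1) ∧
      (∀ᶠ q in 𝓝 (0 : Y × P), Φ (χ q, q.2) = q.1) ∧
      Bijective fun v : Y => fderiv ℂ χ 0 (v, 0) := by
  let Γ : X × P → Y × P := fun q => (Φ q, q.2)
  have hΓ : AnalyticAt ℂ Γ 0 := hΦ.prod analyticAt_snd
  have hΓ0 : Γ 0 = 0 := by simp [Γ, h0]
  have hd : HasFDerivAt Γ ((fderiv ℂ Φ 0).prod (ContinuousLinearMap.snd ℂ X P)) 0 :=
    hΦ.differentiableAt.hasFDerivAt.prodMk hasFDerivAt_snd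
  have hbij : Bijective (fderiv ℂ Γ 0) := by
    rw [hd.fderiv]
    constructor
    · rw [injective_iff_map_eq_zero]
      rintro ⟨v, s⟩ h
      simp only [ContinuousLinearMap.prod_apply, ContinuousLinearMap.coe_snd', Prod.mk_eq_zero] at h
      obtain ⟨h1, rfl⟩ := h
      have : v = 0 := hb.1 (by simpa [Prod.mk_zero_zero] using h1)
      simp [this]
    · rintro ⟨y, s⟩
      obtain ⟨v, hv⟩ := hb.2 (y - fderiv ℂ Φ 0 (0, s))
      refine ⟨(v, s), ?_⟩
      have : ((v, s) : X × P) = (v, 0) + (0, s) := by simp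
      simp only [ContinuousLinearMap.prod_apply, ContinuousLinearMap.coe_snd', Prod.mk.injEq,
        and_true]
      rw [this, map_add]
      simp only at hv
      rw [hv]; abel
  obtain ⟨χ, hχ, hχ0, hl, hr⟩ := exists_local_inverse hΓ hbij
  rw [hΓ0] at hχ hχ0 hr
  have hr2 : ∀ᶠ q in 𝓝 (0 : Y × P), (χ q).2 = q.2 := hr.mono fun q hq => congrArg Prod.snd hq
  have hr1 : ∀ᶠ q in 𝓝 (0 : Y × P), Φ ((χ q).1, q.2) = q.1 := by
    filter_upwards [hr, hr2] with q hq h2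
    rw [← h2]; exact congrArg Prod.fst hq
  have han : AnalyticAt ℂ (fun q => (χ q).1) 0 := analyticAt_fst.comp hχ
  refine ⟨fun q => (χ q).1, han, by simp [hχ0], hl.mono fun q hq => congrArg Prod.fst hq, hr1, ?_⟩
  have hc : HasFDerivAt (fun q : Y × P => Φ ((χ q).1, q.2))
      ((fderiv ℂ Φ 0).comp ((fderiv ℂ (fun q => (χ q).1) 0).prod
        (ContinuousLinearMap.snd ℂ Y P))) 0 := by
    have h1 : HasFDerivAt Φ (fderiv ℂ Φ 0) (((χ 0).1, (0 : Y × P).2)) := by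
      rw [hχ0]; exact hΦ.differentiableAt.hasFDerivAt
    exact h1.comp (0 : Y × P) (han.differentiableAt.hasFDerivAt.prodMk hasFDerivAt_snd)
  have he := hc.unique (hasFDerivAt_fst.congr_of_eventuallyEq hr1)
  have key : ∀ v : Y, fderiv ℂ Φ 0 (fderiv ℂ (fun q => (χ q).1) 0 (v, 0), 0) = v := fun v => by
    simpa using congrArg (fun T => T (v, 0)) he
  refine ⟨fun v v' h => ?_, fun x => ⟨fderiv ℂ Φ 0 (x, 0), hb.1 (key _)⟩⟩
  rw [← key v, ← key v']; simp only at h; rw [h]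

end Pool.Agent.Lib.SCV
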