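import Pool.Agent.Lib.SCV.Osgood
import Pool.Agent.Lib.SCV.Inverse

/-! Parameter dependent Cauchy integrals, division by a coordinate, even/odd decomposition and the
Morse lemma with parameters. -/

open Filter Topology Set Function Metric

namespace Pool.Agent.Lib.SCV

variable {P X : Type*} [NormedAddCommGroup P] [NormedSpace ℂ P] [FiniteDimensional ℂ P]
  [NormedAddCommGroup X] [NormedSpace ℂ X] [FiniteDimensional ℂ X]

theorem analyticAt_circleIntegral {H : ℂ × P → X} {p₀ : P} {r : ℝ} (hr : 0 < r)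
    (hH : ∀ ζ ∈ sphere (0 : ℂ) r, AnalyticAt ℂ H (ζ, p₀)) :
    AnalyticAt ℂ (fun p => ∮ ζ in C(0, r), H (ζ, p)) p₀ := by
  have : CompleteSpace X := FiniteDimensional.complete ℂ X
  have : CompleteSpace P := FiniteDimensional.complete ℂ P
  have : ProperSpace P := FiniteDimensional.proper ℂ P
  have hopen : IsOpen {q : ℂ × P | AnalyticAt ℂ H q} := isOpen_analyticAt ℂ H
  obtain ⟨U, V, -, hV, hsU, hpV, hUV⟩ := generalized_tube_lemma (isCompact_sphere (0 : ℂ) r)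
    (isCompact_singleton (x := p₀)) hopen (by
      rintro ⟨ζ, p⟩ ⟨h1, h2⟩
      simp only [mem_singleton_iff] at h2
      subst h2
      exact hH ζ h1)
  obtain ⟨δ, hδ, hball⟩ : ∃ δ > 0, closedBall p₀ δ ⊆ V :=
    nhds_basis_closedBall.mem_iff.1 (hV.mem_nhds (hpV rfl))
  set K : Set (ℂ × P) := sphere (0 : ℂ) r ×ˢ closedBall p₀ δ with hK
  have hKc : IsCompact K := (isCompact_sphere _ _).prod (isCompact_closedBall _ _)
  have hKa : AnalyticOnNhd ℂ H K := fun q hq => hUV ⟨hsU hq.1, hball hq.2⟩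
  have hcont : ContinuousOn (fderiv ℂ H) K := hKa.fderiv.continuousOn
  obtain ⟨C, hC⟩ := hKc.exists_bound_of_continuousOn hcont
  have hmem : ∀ θ : ℝ, ∀ p ∈ closedBall p₀ δ, (circleMap 0 r θ, p) ∈ K := fun θ p hp =>
    ⟨circleMap_mem_sphere _ hr.le _, hp⟩
  have hder : Continuous fun θ : ℝ => deriv (circleMap 0 r) θ := by
    simp only [deriv_circleMap]
    exact (continuous_circleMap 0 r).mul continuous_const
  have hc1 : ∀ p ∈ closedBall p₀ δ,
      Continuous fun θ : ℝ => deriv (circleMap 0 r) θ • H (circleMap 0 r θ, p) := fun p hp =>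
    hder.smul (hKa.continuousOn.comp_continuous
      ((continuous_circleMap 0 r).prodMk continuous_const) fun θ => hmem θ p hp)
  have hc2 : ∀ p ∈ closedBall p₀ δ,
      Continuous fun θ : ℝ => deriv (circleMap 0 r) θ •
        (fderiv ℂ H (circleMap 0 r θ, p)).comp (ContinuousLinearMap.inr ℂ ℂ P) := fun p hp =>
    hder.smul ((hcont.comp_continuous
      ((continuous_circleMap 0 r).prodMk continuous_const) fun θ => hmem θ p hp).clm_comp
        continuous_const)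
  apply analyticAt_of_eventually_differentiableAt
  filter_upwards [ball_mem_nhds p₀ hδ] with p hp
  have hs : ball p₀ δ ∈ 𝓝 p := isOpen_ball.mem_nhds hp
  have key := intervalIntegral.hasFDerivAt_integral_of_dominated_of_fderiv_le (𝕜 := ℂ)
    (μ := MeasureTheory.volume) (a := 0) (b := 2 * Real.pi) (s := ball p₀ δ)
    (bound := fun _ => r * C)
    (F := fun x θ => deriv (circleMap 0 r) θ • H (circleMap 0 r θ, x))
    (F' := fun x θ => deriv (circleMap 0 r) θ •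
        (fderiv ℂ H (circleMap 0 r θ, x)).comp (ContinuousLinearMap.inr ℂ ℂ P)) (x₀ := p) hs
    (by
      filter_upwards [hs] with x hx
      exact (hc1 x (ball_subset_closedBall hx)).aestronglyMeasurable)
    ((hc1 p (ball_subset_closedBall hp)).intervalIntegrable _ _)
    (hc2 p (ball_subset_closedBall hp)).aestronglyMeasurable
    (Eventually.of_forall fun θ _ x hx => by
      rw [norm_smul]
      have h1 : ‖deriv (circleMap 0 r) θ‖ = r := by
        simp [deriv_circleMap, abs_of_pos hr]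
      rw [h1]
      refine mul_le_mul_of_nonneg_left ?_ hr.le
      refine (ContinuousLinearMap.opNorm_comp_le _ _).trans ?_
      have h2 : ‖ContinuousLinearMap.inr ℂ ℂ P‖ ≤ 1 :=
        ContinuousLinearMap.opNorm_le_bound _ zero_le_one fun v => by simp
      have h3 := hC _ (hmem θ x (ball_subset_closedBall hx))
      calc _ ≤ C * 1 := mul_le_mul h3 h2 (norm_nonneg _) ((norm_nonneg _).trans h3)
        _ = C := mul_one C)
    intervalIntegrable_const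
    (Eventually.of_forall fun θ _ x hx => by
      have h1 := (hKa _ (hmem θ x (ball_subset_closedBall hx))).differentiableAt.hasFDerivAt
      exact (h1.comp x (hasFDerivAt_prodMk_right (circleMap 0 r θ) x)).const_smul _)
  exact key.differentiableAt

omit [FiniteDimensional ℂ P] in
theorem exists_radius {G : ℂ × P → X} {p₀ : P} (hG : AnalyticAt ℂ G (0, p₀)) :
    ∃ r > 0, ∀ z ∈ closedBall (0 : ℂ) r, ∀ p ∈ closedBall p₀ r, AnalyticAt ℂ G (z, p) := by
  have : CompleteSpace X := FiniteDimensional.complete ℂ X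
  obtain ⟨r, hr, h⟩ := nhds_basis_closedBall.mem_iff.1 hG.eventually_analyticAt
  refine ⟨r, hr, fun z hz p hp => h ?_⟩
  rw [← closedBall_prod_same]
  exact ⟨hz, hp⟩

omit [FiniteDimensional ℂ P] in
theorem cauchy_param {G : ℂ × P → X} {p : P} {r : ℝ}
    (h : ∀ z ∈ closedBall (0 : ℂ) r, AnalyticAt ℂ G (z, p)) {z : ℂ} (hz : z ∈ ball (0 : ℂ) r) :
    (2 * Real.pi * Complex.I : ℂ)⁻¹ • (∮ ζ in C(0, r), (ζ - z)⁻¹ • G (ζ, p)) = G (z, p) := by
  have : CompleteSpace X := FiniteDimensional.complete ℂ X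
  have hd : DifferentiableOn ℂ (fun ζ => G (ζ, p)) (closedBall 0 r) := fun ζ hζ =>
    ((h ζ hζ).differentiableAt.comp ζ
      (differentiableAt_id.prodMk (differentiableAt_const p))).differentiableWithinAt
  rw [hd.circleIntegral_sub_inv_smul hz, inv_smul_smul₀]
  simp [Real.pi_ne_zero, Complex.I_ne_zero]

theorem analyticAt_kernel {G : ℂ × P → X} {p₀ : P} {r : ℝ} (hr : 0 < r)
    (h : ∀ z ∈ closedBall (0 : ℂ) r, AnalyticAt ℂ G (z, p₀)) {k : ℂ × ℂ → ℂ}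
    (hk : ∀ ζ ∈ sphere (0 : ℂ) r, AnalyticAt ℂ k (ζ, 0)) :
    AnalyticAt ℂ (fun q : ℂ × P =>
      (2 * Real.pi * Complex.I : ℂ)⁻¹ • ∮ ζ in C(0, r), k (ζ, q.1) • G (ζ, q.2)) (0, p₀) := by
  have h1 := analyticAt_circleIntegral (P := ℂ × P) (p₀ := (0, p₀))
    (H := fun w : ℂ × (ℂ × P) => k (w.1, w.2.1) • G (w.1, w.2.2)) hr (fun ζ hζ => by
      have a1 : AnalyticAt ℂ (fun w : ℂ × (ℂ × P) => (w.1, w.2.1)) (ζ, (0, p₀)) :=
        analyticAt_fst.prod (analyticAt_fst.comp analyticAt_snd)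
      have a2 : AnalyticAt ℂ (fun w : ℂ × (ℂ × P) => (w.1, w.2.2)) (ζ, (0, p₀)) :=
        analyticAt_fst.prod (analyticAt_snd.comp analyticAt_snd)
      exact ((hk ζ hζ).comp_of_eq a1 rfl).smul
        ((h ζ (sphere_subset_closedBall hζ)).comp_of_eq a2 rfl))
  exact h1.const_smul

omit [FiniteDimensional ℂ P] [FiniteDimensional ℂ X] in
theorem circleIntegrable_kernel {G : ℂ × P → X} {p : P} {r : ℝ} (hr : 0 < r)
    (h : ∀ z ∈ closedBall (0 : ℂ) r, AnalyticAt ℂ G (z, p)) {k : ℂ → ℂ}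
    (hk : ContinuousOn k (sphere 0 r)) :
    CircleIntegrable (fun ζ => k ζ • G (ζ, p)) 0 r := by
  refine ContinuousOn.circleIntegrable hr.le (hk.smul fun ζ hζ => ?_)
  exact ((h ζ (sphere_subset_closedBall hζ)).continuousAt.comp_of_eq
    (continuousAt_id.prodMk continuousAt_const) rfl).continuousWithinAt

theorem ne_of_sphere_ball {r : ℝ} {ζ z : ℂ} (hζ : ζ ∈ sphere (0 : ℂ) r) (hz : z ∈ ball (0 : ℂ) r) :
    ζ - z ≠ 0 ∧ ζ + z ≠ 0 ∧ ζ ≠ 0 := by
  simp only [mem_sphere_iff_norm, sub_zero, mem_ball_zero_iff] at hζ hz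
  refine ⟨fun h => ?_, fun h => ?_, fun h => ?_⟩
  · rw [sub_eq_zero] at h; rw [h] at hζ; linarith
  · rw [add_eq_zero_iff_eq_neg] at h; rw [h, norm_neg] at hζ; linarith
  · rw [h, norm_zero] at hζ; linarith [norm_nonneg z]

omit [NormedSpace ℂ P] [FiniteDimensional ℂ P] in
theorem eventually_mem_polydisc {p₀ : P} {r : ℝ} (hr : 0 < r) :
    ∀ᶠ q in 𝓝 ((0, p₀) : ℂ × P), q.1 ∈ ball (0 : ℂ) r ∧ q.2 ∈ closedBall p₀ r := by
  filter_upwards [ball_mem_nhds ((0, p₀) : ℂ × P) hr] with q hq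
  rw [← ball_prod_same] at hq
  exact ⟨hq.1, ball_subset_closedBall hq.2⟩

theorem exists_div {G : ℂ × P → X} {p₀ : P} (hG : AnalyticAt ℂ G (0, p₀))
    (h0 : ∀ᶠ p in 𝓝 p₀, G (0, p) = 0) :
    ∃ Q : ℂ × P → X, AnalyticAt ℂ Q (0, p₀) ∧ (∀ᶠ q in 𝓝 ((0, p₀) : ℂ × P), G q = q.1 • Q q) ∧
      ∀ᶠ p in 𝓝 p₀, Q (0, p) = fderiv ℂ G (0, p) (1, 0) := by
  have : CompleteSpace X := FiniteDimensional.complete ℂ X
  obtain ⟨r, hr, h⟩ := exists_radius hG
  have h0r : (0 : ℂ) ∈ ball (0 : ℂ) r := mem_ball_self hr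
  let Q : ℂ × P → X := fun q =>
    (2 * Real.pi * Complex.I : ℂ)⁻¹ • ∮ ζ in C(0, r), (ζ * (ζ - q.1))⁻¹ • G (ζ, q.2)
  have hQ : AnalyticAt ℂ Q (0, p₀) :=
    analyticAt_kernel hr (fun z hz => h z hz p₀ (mem_closedBall_self hr.le))
      (k := fun w => (w.1 * (w.1 - w.2))⁻¹) fun ζ hζ => by
        have hne := (ne_of_sphere_ball hζ h0r).2.2
        exact (analyticAt_fst.mul (analyticAt_fst.sub analyticAt_snd)).inv (by simpa using hne)
  have h0' : ∀ᶠ q in 𝓝 ((0, p₀) : ℂ × P), G (0, q.2) = 0 :=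
    (continuous_snd.continuousAt (x := ((0, p₀) : ℂ × P))).eventually h0
  have hE : ∀ᶠ q in 𝓝 ((0, p₀) : ℂ × P), G q = q.1 • Q q := by
    filter_upwards [h0', eventually_mem_polydisc (p₀ := p₀) hr] with q hq0 hq
    obtain ⟨z, p⟩ := q
    obtain ⟨hz, hp⟩ := hq
    simp only at hz hp hq0 ⊢
    have hp' : ∀ w ∈ closedBall (0 : ℂ) r, AnalyticAt ℂ G (w, p) := fun w hw => h w hw p hp
    have e1 := cauchy_param hp' hz
    have e2 := cauchy_param hp' h0r
    have i1 : CircleIntegrable (fun ζ => (ζ - z)⁻¹ • G (ζ, p)) 0 r :=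
      circleIntegrable_kernel hr hp' ((continuousOn_id.sub continuousOn_const).inv₀
        fun ζ hζ => (ne_of_sphere_ball hζ hz).1)
    have i2 : CircleIntegrable (fun ζ => (ζ - 0)⁻¹ • G (ζ, p)) 0 r :=
      circleIntegrable_kernel hr hp' ((continuousOn_id.sub continuousOn_const).inv₀
        fun ζ hζ => (ne_of_sphere_ball hζ h0r).1)
    have e4 : (∮ ζ in C(0, r), (ζ - z)⁻¹ • G (ζ, p)) - (∮ ζ in C(0, r), (ζ - 0)⁻¹ • G (ζ, p)) =
        z • ∮ ζ in C(0, r), (ζ * (ζ - z))⁻¹ • G (ζ, p) := by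
      rw [← circleIntegral.integral_sub i1 i2, ← circleIntegral.integral_smul]
      refine circleIntegral.integral_congr hr.le fun ζ hζ => ?_
      obtain ⟨n1, -, n3⟩ := ne_of_sphere_ball hζ hz
      simp only [smul_smul, ← sub_smul]
      congr 1
      simp only [sub_zero]
      field_simp
      ring
    calc G (z, p) = G (z, p) - G (0, p) := by rw [hq0, sub_zero]
      _ = (2 * Real.pi * Complex.I : ℂ)⁻¹ • ((∮ ζ in C(0, r), (ζ - z)⁻¹ • G (ζ, p)) -
          (∮ ζ in C(0, r), (ζ - 0)⁻¹ • G (ζ, p))) := by rw [smul_sub, e1, e2]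
      _ = z • Q (z, p) := by rw [e4, smul_comm]
  refine ⟨Q, hQ, hE, ?_⟩
  have hc : ContinuousAt (fun p : P => ((0, p) : ℂ × P)) p₀ :=
    continuousAt_const.prodMk continuousAt_id
  filter_upwards [hc.eventually (hE.eventually_nhds.and hQ.eventually_analyticAt)] with p hp
  obtain ⟨hp1, hp2⟩ := hp
  have hd : HasFDerivAt (fun q : ℂ × P => q.1 • Q q) _ (0, p) :=
    hasFDerivAt_fst.smul hp2.differentiableAt.hasFDerivAt
  have := (hd.congr_of_eventuallyEq hp1).fderiv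
  rw [this]
  simp

theorem exists_even_odd {G : ℂ × P → X} {p₀ : P} (hG : AnalyticAt ℂ G (0, p₀)) :
    ∃ A B : ℂ × P → X, AnalyticAt ℂ A (0, p₀) ∧ AnalyticAt ℂ B (0, p₀) ∧
      ∀ᶠ q in 𝓝 ((0, p₀) : ℂ × P), G q = A (q.1 ^ 2, q.2) + q.1 • B (q.1 ^ 2, q.2) := by
  obtain ⟨r, hr, h⟩ := exists_radius hG
  have h0r : (0 : ℂ) ∈ ball (0 : ℂ) r := mem_ball_self hr
  have hp₀ : ∀ z ∈ closedBall (0 : ℂ) r, AnalyticAt ℂ G (z, p₀) :=
    fun z hz => h z hz p₀ (mem_closedBall_self hr.le)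
  have hk : ∀ ζ ∈ sphere (0 : ℂ) r, AnalyticAt ℂ (fun w : ℂ × ℂ => (w.1 ^ 2 - w.2)⁻¹) (ζ, 0) :=
    fun ζ hζ => by
      have hne := (ne_of_sphere_ball hζ h0r).2.2
      exact ((analyticAt_fst.pow 2).sub analyticAt_snd).inv (by simpa using hne)
  refine ⟨fun q => (2 * Real.pi * Complex.I : ℂ)⁻¹ •
      ∮ ζ in C(0, r), (ζ * (ζ ^ 2 - q.1)⁻¹) • G (ζ, q.2),
    fun q => (2 * Real.pi * Complex.I : ℂ)⁻¹ • ∮ ζ in C(0, r), (ζ ^ 2 - q.1)⁻¹ • G (ζ, q.2),
    analyticAt_kernel hr hp₀ (k := fun w => w.1 * (w.1 ^ 2 - w.2)⁻¹)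
      fun ζ hζ => analyticAt_fst.mul (hk ζ hζ),
    analyticAt_kernel hr hp₀ (k := fun w => (w.1 ^ 2 - w.2)⁻¹) hk, ?_⟩
  filter_upwards [eventually_mem_polydisc (p₀ := p₀) hr] with q hq
  obtain ⟨z, p⟩ := q
  obtain ⟨hz, hp⟩ := hq
  simp only at hz hp ⊢
  have hp' : ∀ w ∈ closedBall (0 : ℂ) r, AnalyticAt ℂ G (w, p) := fun w hw => h w hw p hp
  have hne : ∀ ζ ∈ sphere (0 : ℂ) r, ζ ^ 2 - z ^ 2 ≠ 0 := fun ζ hζ => by
    obtain ⟨n1, n2, -⟩ := ne_of_sphere_ball hζ hz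
    rw [sq_sub_sq]
    exact mul_ne_zero n2 n1
  have hcont : ContinuousOn (fun ζ : ℂ => (ζ ^ 2 - z ^ 2)⁻¹) (sphere 0 r) :=
    ((continuousOn_id.pow 2).sub continuousOn_const).inv₀ hne
  have i1 : CircleIntegrable (fun ζ => (ζ * (ζ ^ 2 - z ^ 2)⁻¹) • G (ζ, p)) 0 r :=
    circleIntegrable_kernel hr hp' (continuousOn_id.mul hcont)
  have i2 : CircleIntegrable (fun ζ => (z * (ζ ^ 2 - z ^ 2)⁻¹) • G (ζ, p)) 0 r :=
    circleIntegrable_kernel hr hp' (continuousOn_const.mul hcont)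
  rw [← cauchy_param hp' hz, smul_comm z, ← smul_add, ← circleIntegral.integral_smul z]
  congr 1
  simp only [smul_smul]
  rw [← circleIntegral.integral_add i1 i2]
  refine circleIntegral.integral_congr hr.le fun ζ hζ => ?_
  obtain ⟨n1, n2, -⟩ := ne_of_sphere_ball hζ hz
  simp only [← add_smul]
  congr 1
  rw [sq_sub_sq]
  field_simp

theorem exists_analytic_sqrt {E : Type*} [NormedAddCommGroup E] [NormedSpace ℂ E] {Q : E → ℂ}
    {x : E} (hQ : AnalyticAt ℂ Q x) (h0 : Q x ≠ 0) :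
    ∃ S : E → ℂ, AnalyticAt ℂ S x ∧ S x ≠ 0 ∧ ∀ᶠ y in 𝓝 x, S y ^ 2 = Q y := by
  obtain ⟨s₀, hs₀⟩ := IsAlgClosed.exists_pow_nat_eq (Q x) (n := 2) two_pos
  have hq : AnalyticAt ℂ (fun y => Q y / Q x) x := hQ.div analyticAt_const h0
  have hq1 : Q x / Q x = 1 := div_self h0
  have hl : AnalyticAt ℂ (fun y => Complex.log (Q y / Q x)) x :=
    hq.clog (by rw [hq1]; exact Complex.one_mem_slitPlane)
  refine ⟨fun y => s₀ * Complex.exp (Complex.log (Q y / Q x) / 2),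
    analyticAt_const.mul (hl.div analyticAt_const two_ne_zero).cexp, ?_, ?_⟩
  · refine mul_ne_zero (fun h => h0 ?_) (Complex.exp_ne_zero _)
    rw [← hs₀, h]; simp
  · filter_upwards [hQ.continuousAt.eventually_ne h0] with y hy
    have : Complex.exp (Complex.log (Q y / Q x) / 2) ^ 2 = Q y / Q x := by
      rw [← Complex.exp_nat_mul]
      have : ((2 : ℕ) : ℂ) * (Complex.log (Q y / Q x) / 2) = Complex.log (Q y / Q x) := by
        push_cast; ring
      rw [this, Complex.exp_log (div_ne_zero hy h0)]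
    rw [mul_pow, this, hs₀]
    field_simp

omit [FiniteDimensional ℂ P] [FiniteDimensional ℂ X] in
theorem hasDerivAt_slice {F : ℂ × P → X} {z : ℂ} {p : P} (hF : DifferentiableAt ℂ F (z, p)) :
    HasDerivAt (fun w => F (w, p)) (fderiv ℂ F (z, p) (1, 0)) z := by
  have h1 : HasDerivAt (fun w : ℂ => ((w, p) : ℂ × P)) (1, 0) z :=
    (hasDerivAt_id z).prodMk (hasDerivAt_const z p)
  exact hF.hasFDerivAt.comp_hasDerivAt z h1

theorem exists_morse {G : ℂ × P → ℂ} (hG : AnalyticAt ℂ G 0) (h1 : fderiv ℂ G 0 (1, 0) = 0)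
    (h2 : fderiv ℂ (fderiv ℂ G) 0 (1, 0) (1, 0) ≠ 0) :
    ∃ (ζ : ℂ × P → ℂ) (a : P → ℂ), AnalyticAt ℂ ζ 0 ∧ AnalyticAt ℂ a 0 ∧ ζ 0 = 0 ∧
      fderiv ℂ ζ 0 (1, 0) ≠ 0 ∧ ∀ᶠ q in 𝓝 (0 : ℂ × P), G q = a q.2 + ζ q ^ 2 := by
  have : CompleteSpace P := FiniteDimensional.complete ℂ P
  have z0 : ((0, 0) : ℂ × P) = 0 := rfl
  let Φ : ℂ × P → ℂ := fun q => fderiv ℂ G q (1, 0)
  let ev : (ℂ × P →L[ℂ] ℂ) →L[ℂ] ℂ := ContinuousLinearMap.apply ℂ ℂ ((1, 0) : ℂ × P)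
  have hΦ : AnalyticAt ℂ Φ 0 := (ev.analyticAt _).comp hG.fderiv
  have hΦd : ∀ v : ℂ × P, fderiv ℂ Φ 0 v = fderiv ℂ (fderiv ℂ G) 0 v (1, 0) := fun v => by
    have : HasFDerivAt Φ (ev.comp (fderiv ℂ (fderiv ℂ G) 0)) 0 :=
      ev.hasFDerivAt.comp (0 : ℂ × P) hG.fderiv.differentiableAt.hasFDerivAt
    rw [this.fderiv]; rfl
  set κ := fderiv ℂ (fderiv ℂ G) 0 (1, 0) (1, 0) with hκ
  have hlin : ∀ v : ℂ, fderiv ℂ Φ 0 (v, 0) = v * κ := fun v => by
    have : ((v, 0) : ℂ × P) = v • ((1, 0) : ℂ × P) := by simp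
    rw [this, map_smul, hΦd, smul_eq_mul]
  have hb : Bijective fun v : ℂ => fderiv ℂ Φ 0 (v, 0) := by
    simp only [hlin]
    exact (Equiv.mulRight₀ κ h2).bijective
  obtain ⟨χ, hχ, hχ0, -, hχr, -⟩ := exists_param_inverse hΦ h1 hb
  let c : P → ℂ := fun p => χ (0, p)
  have hin : AnalyticAt ℂ (fun p : P => ((0, p) : ℂ × P)) 0 := analyticAt_const.prod analyticAt_id
  have hc : AnalyticAt ℂ c 0 := hχ.comp_of_eq hin rfl
  have hc0 : c 0 = 0 := hχ0
  have hcrit : ∀ᶠ p in 𝓝 (0 : P), Φ (c p, p) = 0 := hin.continuousAt.eventually hχr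
  have hcs : AnalyticAt ℂ (fun q : ℂ × P => c q.2) 0 := hc.comp_of_eq analyticAt_snd rfl
  have hcp : AnalyticAt ℂ (fun p : P => ((c p, p) : ℂ × P)) 0 := hc.prod analyticAt_id
  have hcp0 : ((c 0, 0) : ℂ × P) = 0 := by rw [hc0]; rfl
  let a : P → ℂ := fun p => G (c p, p)
  have ha : AnalyticAt ℂ a 0 := hG.comp_of_eq hcp hcp0
  let G₁ : ℂ × P → ℂ := fun q => G (q.1 + c q.2, q.2) - a q.2
  have hT : AnalyticAt ℂ (fun q : ℂ × P => ((q.1 + c q.2, q.2) : ℂ × P)) 0 :=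
    (analyticAt_fst.add hcs).prod analyticAt_snd
  have hG₁ : AnalyticAt ℂ G₁ (0, 0) :=
    (hG.comp_of_eq hT (by simp [hc0])).sub (ha.comp_of_eq analyticAt_snd rfl)
  obtain ⟨Q₁, hQ₁, hE₁, hD₁⟩ := exists_div hG₁ (Eventually.of_forall fun p => by simp [G₁, a])
  have hQ₁0 : ∀ᶠ p in 𝓝 (0 : P), Q₁ (0, p) = 0 := by
    have e1 : ∀ᶠ p in 𝓝 (0 : P), AnalyticAt ℂ G₁ (0, p) :=
      hin.continuousAt.eventually hG₁.eventually_analyticAt
    have e2 : ∀ᶠ p in 𝓝 (0 : P), AnalyticAt ℂ G (c p, p) :=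
      (hcp.continuousAt.tendsto.mono_right (by rw [hcp0])).eventually hG.eventually_analyticAt
    filter_upwards [hD₁, hcrit, e1, e2] with p hp hp1 hp2 hp3
    rw [hp]
    have d1 := hasDerivAt_slice hp2.differentiableAt
    have d2 : HasDerivAt (fun w => G (w, p)) (Φ (c p, p)) (0 + c p) := by
      rw [zero_add]; exact hasDerivAt_slice hp3.differentiableAt
    have d3 : HasDerivAt (fun w => G₁ (w, p)) (Φ (c p, p)) 0 :=
      (d2.comp_add_const 0 (c p)).sub_const (a p)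
    rw [d1.unique d3, hp1]
  obtain ⟨Q₂, hQ₂, hE₂, -⟩ := exists_div hQ₁ hQ₁0
  have hE : ∀ᶠ q in 𝓝 (0 : ℂ × P), G₁ q = q.1 ^ 2 * Q₂ q := by
    filter_upwards [hE₁, hE₂] with q e1 e2
    rw [e1, e2, smul_eq_mul, smul_eq_mul]; ring
  have hsl : AnalyticAt ℂ (fun w : ℂ => ((w, 0) : ℂ × P)) 0 := analyticAt_id.prod analyticAt_const
  have hQ₂0 : Q₂ 0 ≠ 0 := by
    intro hz
    let g : ℂ → ℂ := fun w => Q₂ (w, 0)
    have hg : AnalyticAt ℂ g 0 := hQ₂.comp_of_eq hsl rfl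
    have hg0 : g 0 = 0 := hz
    have e1 : ∀ᶠ w in 𝓝 (0 : ℂ), G (w, 0) = a 0 + w ^ 2 * g w := by
      filter_upwards [hsl.continuousAt.eventually hE] with w hw
      simp only [G₁, hc0, add_zero] at hw
      rw [← hw]; ring
    have e2 : ∀ᶠ w in 𝓝 (0 : ℂ), Φ (w, 0) = 2 * w * g w + w ^ 2 * deriv g w := by
      have e3 : ∀ᶠ w in 𝓝 (0 : ℂ), AnalyticAt ℂ G (w, 0) :=
        hsl.continuousAt.eventually hG.eventually_analyticAt
      filter_upwards [e1.eventually_nhds, e3, hg.eventually_analyticAt] with w hw1 hw2 hw3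
      have d1 := hasDerivAt_slice hw2.differentiableAt
      have d2 : HasDerivAt (fun w => a 0 + w ^ 2 * g w) (2 * w * g w + w ^ 2 * deriv g w) w := by
        have := ((hasDerivAt_pow 2 w).mul hw3.differentiableAt.hasDerivAt).const_add (a 0)
        simpa using this
      exact d1.unique (d2.congr_of_eventuallyEq hw1)
    have d1 : HasDerivAt (fun w => Φ (w, 0)) κ 0 := by
      have := hasDerivAt_slice (F := Φ) (z := 0) (p := 0) hΦ.differentiableAt
      rw [z0, hlin, one_mul] at this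
      exact this
    have d2 : HasDerivAt (fun w => 2 * w * g w + w ^ 2 * deriv g w) 0 0 := by
      have := (((hasDerivAt_id' (0 : ℂ)).const_mul 2).fun_mul
        hg.differentiableAt.hasDerivAt).fun_add
        ((hasDerivAt_pow 2 (0 : ℂ)).fun_mul hg.deriv.differentiableAt.hasDerivAt)
      refine this.congr_deriv ?_
      simp [hg0]
    exact h2 (d1.unique (d2.congr_of_eventuallyEq e2))
  obtain ⟨S, hS, hS0, hSQ⟩ := exists_analytic_sqrt (x := (0 : ℂ × P)) hQ₂ hQ₂0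
  have hT' : AnalyticAt ℂ (fun q : ℂ × P => ((q.1 - c q.2, q.2) : ℂ × P)) 0 :=
    (analyticAt_fst.sub hcs).prod analyticAt_snd
  have hT'0 : (((0 : ℂ × P).1 - c (0 : ℂ × P).2, (0 : ℂ × P).2) : ℂ × P) = 0 := by simp [hc0]
  let ζ : ℂ × P → ℂ := fun q => (q.1 - c q.2) * S (q.1 - c q.2, q.2)
  have hζ : AnalyticAt ℂ ζ 0 := (analyticAt_fst.sub hcs).mul (hS.comp_of_eq hT' hT'0)
  refine ⟨ζ, a, hζ, ha, by simp [ζ, hc0], ?_, ?_⟩
  · have d1 := hasDerivAt_slice (F := ζ) (z := 0) (p := 0) hζ.differentiableAt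
    have hs : AnalyticAt ℂ (fun w : ℂ => S (w, 0)) 0 := hS.comp_of_eq hsl rfl
    have d2 : HasDerivAt (fun w => ζ (w, 0)) (S 0) 0 := by
      have := (hasDerivAt_id' (0 : ℂ)).fun_mul hs.differentiableAt.hasDerivAt
      have e : (fun w => ζ (w, 0)) = fun w => w * S (w, 0) := by
        funext w; simp [ζ, hc0]
      rw [e]
      refine this.congr_deriv ?_
      simp [z0]
    rw [z0] at d1
    rw [d1.unique d2]
    exact hS0
  · have := (hT'.continuousAt.tendsto.mono_right (by rw [hT'0])).eventually (hE.and hSQ)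
    filter_upwards [this] with q hq
    obtain ⟨e1, e2⟩ := hq
    simp only [G₁, sub_add_cancel] at e1
    simp only [ζ, mul_pow, e2, ← e1]
    ring

end Pool.Agent.Lib.SCV
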