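import Mathlib

/-! Minimum principle for `‖Ψ‖ / ‖T‖`, `Ψ` a zero free holomorphic map into a space of dimension
at most that of the source, `T` affine and zero free. It replaces degree theory (Rouché) for
holomorphic maps. -/

open Filter Topology Set Function Metric Module

namespace Pool.Agent.Lib.SCV

/-- Second order expansion of a one variable analytic map with vanishing derivative. -/
theorem exists_second_order {F : Type*} [NormedAddCommGroup F] [NormedSpace ℂ F] [CompleteSpace F]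
    {G : ℂ → F} (hG : AnalyticAt ℂ G 0) (hd : deriv G 0 = 0) :
    ∃ R : ℂ → F, ContinuousAt R 0 ∧ ∀ z, G z = G 0 + (z ^ 2) • R z := by
  obtain ⟨p, hp⟩ := hG
  refine ⟨dslope (dslope G 0) 0, ?_, fun z => ?_⟩
  · exact continuousAt_dslope_same.2
      (hp.has_fpower_series_dslope_fslope).analyticAt.differentiableAt
  · have h1 := sub_smul_dslope G 0 z
    have h2 := sub_smul_dslope (dslope G 0) 0 z
    rw [dslope_same, hd] at h2
    simp only [sub_zero] at h1 h2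
    rw [pow_two, mul_smul, h2, h1]
    abel

theorem log_norm_le {F : Type*} [NormedAddCommGroup F] [InnerProductSpace ℂ F] {A R : F}
    (hA : A ≠ 0) (s : ℝ) (h : A + (s : ℂ) • R ≠ 0) :
    Real.log ‖A + (s : ℂ) • R‖ ≤ Real.log ‖A‖ +
      (s * (2 * (inner ℂ A R).re) + s ^ 2 * ‖R‖ ^ 2) / (2 * ‖A‖ ^ 2) := by
  have hA' : 0 < ‖A‖ := norm_pos_iff.2 hA
  have h' : 0 < ‖A + (s : ℂ) • R‖ := norm_pos_iff.2 h
  have e : ‖A + (s : ℂ) • R‖ ^ 2 =
      ‖A‖ ^ 2 + (s * (2 * (inner ℂ A R).re) + s ^ 2 * ‖R‖ ^ 2) := by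
    rw [@norm_add_sq ℂ, inner_smul_right, norm_smul, mul_pow]
    simp only [Complex.norm_real, Real.norm_eq_abs, sq_abs, RCLike.re_to_complex,
      Complex.re_ofReal_mul]
    ring
  have h1 : Real.log (‖A + (s : ℂ) • R‖ ^ 2 / ‖A‖ ^ 2) ≤ ‖A + (s : ℂ) • R‖ ^ 2 / ‖A‖ ^ 2 - 1 :=
    Real.log_le_sub_one_of_pos (by positivity)
  rw [Real.log_div (by positivity) (by positivity), Real.log_pow, Real.log_pow] at h1
  have h2 : ‖A + (s : ℂ) • R‖ ^ 2 / ‖A‖ ^ 2 - 1 =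
      2 * ((s * (2 * (inner ℂ A R).re) + s ^ 2 * ‖R‖ ^ 2) / (2 * ‖A‖ ^ 2)) := by
    rw [e]; field_simp; ring
  rw [h2] at h1
  push_cast at h1
  linarith

/-- One variable core of the minimum principle. -/
theorem min_core {F : Type*} [NormedAddCommGroup F] [InnerProductSpace ℂ F] [CompleteSpace F]
    {G : ℂ → F} (hG : AnalyticAt ℂ G 0) (h0 : G 0 ≠ 0) (a b : ℂ)
    (hd : HasDerivAt G (a • G 0) 0) {κ : ℝ} (hκ : 0 < κ) :
    ¬ ∀ᶠ z in 𝓝 (0 : ℂ), Real.log ‖G 0‖ + κ * ‖z‖ ^ 2 + (b * z).re ≤ Real.log ‖G z‖ := by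
  intro hev
  set G₁ : ℂ → F := fun z => Complex.exp (-(a * z)) • G z with hG₁def
  have hexp : AnalyticAt ℂ (fun z : ℂ => Complex.exp (-(a * z))) 0 := by fun_prop
  have hG₁ : AnalyticAt ℂ G₁ 0 := hexp.smul hG
  have hG₁0 : G₁ 0 = G 0 := by simp [hG₁def]
  have hd₁ : deriv G₁ 0 = 0 := by
    have h1 : HasDerivAt (fun z : ℂ => Complex.exp (-(a * z)))
        (Complex.exp (-(a * 0)) * (-(a * 1))) 0 :=
      (((hasDerivAt_id (0 : ℂ)).const_mul a).neg).cexp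
    have h2 := h1.smul hd
    have h3 : HasDerivAt G₁ (Complex.exp (-(a * 0)) • a • G 0 +
        (Complex.exp (-(a * 0)) * (-(a * 1))) • G 0) 0 := h2
    rw [h3.deriv]
    simp
  obtain ⟨R, hR, hrep⟩ := exists_second_order hG₁ hd₁
  rw [hG₁0] at hrep
  have hne : ∀ᶠ z in 𝓝 (0 : ℂ), G₁ z ≠ 0 := by
    apply hG₁.continuousAt.eventually_ne
    rw [hG₁0]; exact h0
  have hlog : ∀ z, G₁ z ≠ 0 → Real.log ‖G z‖ = (a * z).re + Real.log ‖G₁ z‖ := by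
    intro z hz
    have hz' : G z ≠ 0 := by
      intro h; apply hz; simp [hG₁def, h]
    have : ‖G₁ z‖ = Real.exp (-(a * z).re) * ‖G z‖ := by
      simp only [hG₁def, norm_smul, Complex.norm_exp, Complex.neg_re]
    rw [this, Real.log_mul (Real.exp_pos _).ne' (norm_pos_iff.2 hz').ne', Real.log_exp]
    ring
  set N : ℝ := ‖G 0‖ with hN
  have hNpos : 0 < N := norm_pos_iff.2 h0
  set φ : ℂ → ℝ := fun z => 2 * (inner ℂ (G 0) (R z)).re with hφ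
  set ψ : ℂ → ℝ := fun z => ‖R z‖ ^ 2 with hψ
  have hφc : ContinuousAt φ 0 := by
    have h1 : ContinuousAt (fun z => (inner ℂ (G 0) (R z) : ℂ)) 0 :=
      ContinuousAt.inner continuousAt_const hR
    exact continuousAt_const.mul (Complex.continuous_re.continuousAt.comp h1)
  have hψc : ContinuousAt ψ 0 := hR.norm.pow 2
  have key : ∀ᶠ z in 𝓝 (0 : ℂ), ∀ s : ℝ, z ^ 2 = (s : ℂ) →
      κ * ‖z‖ ^ 2 + (b * z).re ≤ (a * z).re + (s * φ z + s ^ 2 * ψ z) / (2 * N ^ 2) := by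
    filter_upwards [hev, hne] with z h1 h2 s hs
    have h3 := hlog z h2
    have h4 := hrep z
    rw [hs] at h4
    have h5 := log_norm_le (R := R z) h0 s (by rw [← h4]; exact h2)
    rw [← h4] at h5
    simp only [hφ, hψ]
    linarith
  have tend : ∀ ω : ℂ, Tendsto (fun r : ℝ => (r : ℂ) * ω) (𝓝 0) (𝓝 0) := by
    intro ω
    have : Continuous (fun r : ℝ => (r : ℂ) * ω) := by fun_prop
    simpa using this.tendsto 0
  set α : ℝ → ℝ := fun r => (φ (r * 1) + φ (r * (-1)) - φ (r * Complex.I) - φ (r * (-Complex.I)) +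
    r ^ 2 * (ψ (r * 1) + ψ (r * (-1)) + ψ (r * Complex.I) + ψ (r * (-Complex.I)))) / (2 * N ^ 2)
    with hα
  have hαt : Tendsto α (𝓝 0) (𝓝 ((φ 0 + φ 0 - φ 0 - φ 0 +
      (0 : ℝ) ^ 2 * (ψ 0 + ψ 0 + ψ 0 + ψ 0)) / (2 * N ^ 2))) := by
    have p := fun ω => hφc.tendsto.comp (tend ω)
    have q := fun ω => hψc.tendsto.comp (tend ω)
    have r2 : Tendsto (fun r : ℝ => r ^ 2) (𝓝 0) (𝓝 ((0 : ℝ) ^ 2)) :=
      (continuous_pow 2).tendsto 0
    exact (((((p 1).add (p (-1))).sub (p Complex.I)).sub (p (-Complex.I))).add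
      (r2.mul ((((q 1).add (q (-1))).add (q Complex.I)).add (q (-Complex.I))))).div_const _
  have hα0 : ∀ᶠ r in 𝓝 (0 : ℝ), α r < 4 * κ := by
    apply hαt.eventually (gt_mem_nhds _)
    have : (φ 0 + φ 0 - φ 0 - φ 0 + (0 : ℝ) ^ 2 * (ψ 0 + ψ 0 + ψ 0 + ψ 0)) / (2 * N ^ 2) = 0 := by
      ring
    rw [this]; positivity
  have hall := ((((tend 1).eventually key).and ((tend (-1)).eventually key)).and
    (((tend Complex.I).eventually key).and ((tend (-Complex.I)).eventually key))).and hα0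
  have hall' := (hall.filter_mono (nhdsWithin_le_nhds (s := ({0}ᶜ : Set ℝ)))).and
    self_mem_nhdsWithin
  obtain ⟨r, ⟨⟨⟨k1, k2⟩, k3, k4⟩, k5⟩, hr⟩ := hall'.exists
  have hr' : r ≠ 0 := hr
  have hr2 : 0 < r ^ 2 := by positivity
  have k1' := k1 (r ^ 2) (by push_cast; ring)
  have k2' := k2 (r ^ 2) (by push_cast; ring)
  have k3' := k3 (-r ^ 2) (by push_cast; rw [mul_pow, Complex.I_sq]; ring)
  have k4' := k4 (-r ^ 2) (by push_cast; rw [mul_pow, neg_sq, Complex.I_sq]; ring)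
  have n1 : ‖(r : ℂ) * 1‖ ^ 2 = r ^ 2 := by simp
  have n2 : ‖(r : ℂ) * (-1)‖ ^ 2 = r ^ 2 := by simp
  have n3 : ‖(r : ℂ) * Complex.I‖ ^ 2 = r ^ 2 := by simp
  have n4 : ‖(r : ℂ) * (-Complex.I)‖ ^ 2 = r ^ 2 := by simp
  have l1 : ∀ c : ℂ, (c * ((r : ℂ) * (-1))).re = -(c * ((r : ℂ) * 1)).re := by
    intro c; rw [← Complex.neg_re]; congr 1; ring
  have l2 : ∀ c : ℂ, (c * ((r : ℂ) * (-Complex.I))).re = -(c * ((r : ℂ) * Complex.I)).re := by
    intro c; rw [← Complex.neg_re]; congr 1; ring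
  rw [n1] at k1'
  rw [n2, l1, l1] at k2'
  rw [n3] at k3'
  rw [n4, l2, l2] at k4'
  have hsum : (r ^ 2 * φ (r * 1) + (r ^ 2) ^ 2 * ψ (r * 1)) / (2 * N ^ 2) +
      (r ^ 2 * φ (r * (-1)) + (r ^ 2) ^ 2 * ψ (r * (-1))) / (2 * N ^ 2) +
      (-r ^ 2 * φ (r * Complex.I) + (-r ^ 2) ^ 2 * ψ (r * Complex.I)) / (2 * N ^ 2) +
      (-r ^ 2 * φ (r * (-Complex.I)) + (-r ^ 2) ^ 2 * ψ (r * (-Complex.I))) / (2 * N ^ 2) =
      r ^ 2 * α r := by
    simp only [hα]; ring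
  have : r ^ 2 * α r < r ^ 2 * (4 * κ) := mul_lt_mul_of_pos_left k5 hr2
  linarith

theorem exists_direction {V F : Type*} [NormedAddCommGroup V] [NormedSpace ℂ V]
    [FiniteDimensional ℂ V] [NormedAddCommGroup F] [NormedSpace ℂ F]
    [FiniteDimensional ℂ F] (hdim : finrank ℂ F ≤ finrank ℂ V) (D : V →L[ℂ] F) {A : F}
    (hA : A ≠ 0) : ∃ (ξ : V) (a : ℂ), ξ ≠ 0 ∧ D ξ = a • A := by
  by_cases hinj : Injective (D : V →ₗ[ℂ] F)
  · have h1 := LinearMap.finrank_le_finrank_of_injective hinj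
    have h2 := (LinearMap.injective_iff_surjective_of_finrank_eq_finrank
      (le_antisymm h1 hdim)).1 hinj
    obtain ⟨ξ, hξ⟩ := h2 A
    refine ⟨ξ, 1, ?_, by simpa using hξ⟩
    rintro rfl
    apply hA
    rw [← hξ]; simp
  · rw [injective_iff_map_eq_zero] at hinj
    push Not at hinj
    obtain ⟨ξ, h1, h2⟩ := hinj
    exact ⟨ξ, 0, h2, by simpa using h1⟩

theorem min_principle {V F E : Type*} [NormedAddCommGroup V] [NormedSpace ℂ V]
    [FiniteDimensional ℂ V] [NormedAddCommGroup F] [InnerProductSpace ℂ F]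
    [FiniteDimensional ℂ F] [NormedAddCommGroup E] [NormedSpace ℂ E]
    (hdim : finrank ℂ F ≤ finrank ℂ V) {K : Set V} (hK : IsCompact K) {Ψ : V → F}
    (hΨ : ∀ x ∈ K, AnalyticAt ℂ Ψ x) (T : V →L[ℂ] E) (c : E) (hT : ∀ x ∈ K, T x + c ≠ 0)
    (h0 : ∀ x ∈ K, Ψ x ≠ 0) {x₀ : V} (hx₀ : x₀ ∈ K) :
    ∃ b ∈ K, b ∉ interior K ∧ ‖Ψ b‖ / ‖T b + c‖ ≤ ‖Ψ x₀‖ / ‖T x₀ + c‖ := by
  have : CompleteSpace F := FiniteDimensional.complete ℂ F
  by_contra hcon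
  push Not at hcon
  let ι : V ≃L[ℂ] EuclideanSpace ℂ (Fin (finrank ℂ V)) :=
    ContinuousLinearEquiv.ofFinrankEq finrank_euclideanSpace_fin.symm
  set u : V → ℝ := fun x => Real.log (‖Ψ x‖ / ‖T x + c‖) with hu
  have hpos : ∀ x ∈ K, 0 < ‖Ψ x‖ / ‖T x + c‖ := fun x hx =>
    div_pos (norm_pos_iff.2 (h0 x hx)) (norm_pos_iff.2 (hT x hx))
  have huc : ContinuousOn u K := by
    intro x hx
    have h1 : ContinuousAt (fun x => ‖Ψ x‖ / ‖T x + c‖) x := by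
      have h2 : Continuous (fun x => ‖T x + c‖) := by fun_prop
      exact (hΨ x hx).continuousAt.norm.div h2.continuousAt (norm_pos_iff.2 (hT x hx)).ne'
    exact (h1.log (hpos x hx).ne').continuousWithinAt
  have hqc : Continuous (fun x : V => ‖ι x‖ ^ 2) := by fun_prop
  obtain ⟨η, hη, hηB⟩ : ∃ η : ℝ, 0 < η ∧ ∀ b ∈ K, b ∉ interior K →
      u x₀ - η * ‖ι x₀‖ ^ 2 < u b - η * ‖ι b‖ ^ 2 := by
    have hB : IsCompact (K \ interior K) := hK.diff isOpen_interior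
    have hev : ∀ᶠ η in 𝓝 (0 : ℝ), ∀ b ∈ K \ interior K, b ∈ K →
        u x₀ - η * ‖ι x₀‖ ^ 2 < u b - η * ‖ι b‖ ^ 2 := by
      apply hB.eventually_forall_of_forall_eventually
        (P := fun η b => b ∈ K → u x₀ - η * ‖ι x₀‖ ^ 2 < u b - η * ‖ι b‖ ^ 2)
      intro b hb
      have hlt : u x₀ < u b := Real.log_lt_log (hpos x₀ hx₀) (hcon b hb.1 hb.2)
      have hub : ContinuousAt u b := by
        have h1 : ContinuousAt (fun x => ‖Ψ x‖ / ‖T x + c‖) b := by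
          have h2 : Continuous (fun x => ‖T x + c‖) := by fun_prop
          exact (hΨ b hb.1).continuousAt.norm.div h2.continuousAt
            (norm_pos_iff.2 (hT b hb.1)).ne'
        exact h1.log (hpos b hb.1).ne'
      have c1 : ContinuousAt (fun z : ℝ × V => u x₀ - z.1 * ‖ι x₀‖ ^ 2) (0, b) := by fun_prop
      have c2 : ContinuousAt (fun z : ℝ × V => u z.2 - z.1 * ‖ι z.2‖ ^ 2) (0, b) := by
        have : ContinuousAt (fun z : ℝ × V => u z.2) (0, b) :=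
          ContinuousAt.comp (g := u) (f := fun z : ℝ × V => z.2) (x := (0, b)) hub
            continuousAt_snd
        exact this.sub (by fun_prop)
      have := c1.eventually_lt c2 (by simpa using hlt)
      filter_upwards [this] with z hz _ using hz
    obtain ⟨η, h1, h2⟩ := ((hev.filter_mono (nhdsWithin_le_nhds (s := Ioi (0 : ℝ)))).and
      self_mem_nhdsWithin).exists
    exact ⟨η, h2, fun b hb hb' => h1 b ⟨hb, hb'⟩ hb⟩
  obtain ⟨x₁, hx₁, hmin⟩ := hK.exists_isMinOn ⟨x₀, hx₀⟩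
    (f := fun x => u x - η * ‖ι x‖ ^ 2) (huc.sub (continuous_const.mul hqc).continuousOn)
  have hint : x₁ ∈ interior K := by
    by_contra h
    exact absurd (hmin hx₀) (not_le.2 (hηB x₁ hx₁ h))
  obtain ⟨ξ, a, hξ, hDξ⟩ := exists_direction hdim (fderiv ℂ Ψ x₁) (h0 x₁ hx₁)
  obtain ⟨e, he1, he2⟩ := exists_dual_vector'' ℂ (T x₁ + c)
  set N : ℝ := ‖T x₁ + c‖ with hN
  have hNpos : 0 < N := norm_pos_iff.2 (hT x₁ hx₁)
  have hNc : (N : ℂ) ≠ 0 := by exact_mod_cast hNpos.ne'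
  set t : ℂ := e (T ξ) with ht
  set G : ℂ → F := fun z => ((N : ℂ) + z * t)⁻¹ • Ψ (x₁ + z • ξ) with hG
  have hline : AnalyticAt ℂ (fun z : ℂ => x₁ + z • ξ) 0 := by fun_prop
  have hΨl : AnalyticAt ℂ (fun z : ℂ => Ψ (x₁ + z • ξ)) 0 := by
    apply AnalyticAt.comp (g := Ψ) _ hline
    simpa using hΨ x₁ hx₁
  have hden : AnalyticAt ℂ (fun z : ℂ => (N : ℂ) + z * t) 0 := by fun_prop
  have hGa : AnalyticAt ℂ G 0 := (hden.inv (by simpa using hNc)).smul hΨl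
  have hG0 : G 0 = (N : ℂ)⁻¹ • Ψ x₁ := by simp [hG]
  have hG0' : G 0 ≠ 0 := by
    rw [hG0]; exact smul_ne_zero (inv_ne_zero hNc) (h0 x₁ hx₁)
  have hGd : HasDerivAt G ((a - t / N) • G 0) 0 := by
    have d1 : HasDerivAt (fun z : ℂ => x₁ + z • ξ) ξ 0 := by
      simpa using ((hasDerivAt_id (0 : ℂ)).smul_const ξ).const_add x₁
    have d2 : HasDerivAt (fun z : ℂ => Ψ (x₁ + z • ξ)) (fderiv ℂ Ψ x₁ ξ) 0 := by
      have h1 : HasFDerivAt Ψ (fderiv ℂ Ψ x₁) (x₁ + (0 : ℂ) • ξ) := by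
        simpa using (hΨ x₁ hx₁).differentiableAt.hasFDerivAt
      exact h1.comp_hasDerivAt (0 : ℂ) d1
    have d3 : HasDerivAt (fun z : ℂ => (N : ℂ) + z * t) t 0 := by
      simpa using ((hasDerivAt_id (0 : ℂ)).mul_const t).const_add (N : ℂ)
    have d4 := (d3.inv (by simpa using hNc)).smul d2
    have d5 : HasDerivAt G (((N : ℂ) + 0 * t)⁻¹ • fderiv ℂ Ψ x₁ ξ +
        (-t / ((N : ℂ) + 0 * t) ^ 2) • Ψ (x₁ + (0 : ℂ) • ξ)) 0 := d4
    have e1 : ((N : ℂ) + 0 * t)⁻¹ • fderiv ℂ Ψ x₁ ξ +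
        (-t / ((N : ℂ) + 0 * t) ^ 2) • Ψ (x₁ + (0 : ℂ) • ξ) = (a - t / N) • G 0 := by
      rw [hG0, hDξ, smul_smul, smul_smul, zero_mul, add_zero, zero_smul, add_zero, ← add_smul]
      congr 1
      field_simp
      ring
    rw [← e1]; exact d5
  have hq : ι ξ ≠ 0 := by simpa using hξ
  have hκ : 0 < η * ‖ι ξ‖ ^ 2 := mul_pos hη (pow_pos (norm_pos_iff.2 hq) 2)
  apply min_core hGa hG0' (a - t / N) ((2 * η : ℝ) * inner ℂ (ι x₁) (ι ξ)) hGd hκ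
  have hK' : ∀ᶠ z in 𝓝 (0 : ℂ), x₁ + z • ξ ∈ K := by
    apply hline.continuousAt.eventually (p := fun x => x ∈ K)
    simpa using mem_interior_iff_mem_nhds.1 hint
  have hd' : ∀ᶠ z in 𝓝 (0 : ℂ), (N : ℂ) + z * t ≠ 0 :=
    hden.continuousAt.eventually_ne (by simpa using hNc)
  filter_upwards [hK', hd'] with z hz hz'
  have m1 : u x₁ - η * ‖ι x₁‖ ^ 2 ≤ u (x₁ + z • ξ) - η * ‖ι (x₁ + z • ξ)‖ ^ 2 := hmin hz
  have m2 : Real.log ‖G 0‖ = u x₁ := by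
    rw [hG0, norm_smul, norm_inv, Complex.norm_real, Real.norm_of_nonneg hNpos.le]
    simp only [hu]
    congr 1
    rw [← hN]; ring
  have m3 : u (x₁ + z • ξ) ≤ Real.log ‖G z‖ := by
    apply Real.log_le_log (hpos _ hz)
    have e1 : (N : ℂ) + z * t = e (T (x₁ + z • ξ) + c) := by
      have : T (x₁ + z • ξ) + c = (T x₁ + c) + z • T ξ := by
        rw [map_add, map_smul]; abel
      rw [this, map_add, map_smul, he2]
      rfl
    have e2 : ‖(N : ℂ) + z * t‖ ≤ ‖T (x₁ + z • ξ) + c‖ := by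
      rw [e1]
      calc _ ≤ ‖e‖ * ‖T (x₁ + z • ξ) + c‖ := e.le_opNorm _
        _ ≤ 1 * ‖T (x₁ + z • ξ) + c‖ := by gcongr
        _ = _ := one_mul _
    have e3 : ‖G z‖ = ‖Ψ (x₁ + z • ξ)‖ / ‖(N : ℂ) + z * t‖ := by
      simp only [hG, norm_smul, norm_inv]; ring
    rw [e3]
    exact div_le_div_of_nonneg_left (norm_nonneg _) (norm_pos_iff.2 hz') e2
  have m4 : ‖ι (x₁ + z • ξ)‖ ^ 2 = ‖ι x₁‖ ^ 2 + 2 * (inner ℂ (ι x₁) (ι ξ) * z).re +
      ‖z‖ ^ 2 * ‖ι ξ‖ ^ 2 := by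
    rw [map_add, map_smul, @norm_add_sq ℂ, inner_smul_right, norm_smul, mul_pow, mul_comm z]
    simp only [RCLike.re_to_complex]
  have m5 : (((2 * η : ℝ) : ℂ) * inner ℂ (ι x₁) (ι ξ) * z).re =
      2 * η * (inner ℂ (ι x₁) (ι ξ) * z).re := by
    rw [mul_assoc, Complex.re_ofReal_mul]
  rw [m2, m5]
  rw [m4] at m1
  linarith

end Pool.Agent.Lib.SCV
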