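import Mathlib

/-! Osgood / Goursat in several variables: complex differentiable on an open set implies analytic.
Also the analytic inverse function theorem in a convenient form. -/

open Filter Topology Set Function

namespace Pool.Agent.Lib.SCV

section Aux

open Metric

universe v

variable {E : Type*} [NormedAddCommGroup E] [NormedSpace ℂ E]
  {F : Type*} [NormedAddCommGroup F] [NormedSpace ℂ F]

theorem norm_fderiv_le_of_bound {f : E → F} {c : E} {r M : ℝ} (hr : 0 < r)
    (hd : DifferentiableOn ℂ f (ball c r)) (hM : ∀ y ∈ ball c r, ‖f y‖ ≤ M) :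
    ‖fderiv ℂ f c‖ ≤ 2 * M / r := by
  refine Complex.norm_fderiv_le_div_of_mapsTo_ball hd (fun y hy => ?_) hr
  rw [mem_closedBall, dist_eq_norm]
  linarith [norm_sub_le (f y) (f c), hM y hy, hM c (mem_ball_self hr)]

theorem norm_taylor_two_le {f : E → F} {c z : E} {r M : ℝ}
    (hd : DifferentiableOn ℂ f (ball c r)) (hM : ∀ y ∈ ball c r, ‖f y‖ ≤ M) (hz : z ∈ ball c r) :
    ‖f z - f c - fderiv ℂ f c (z - c)‖ ≤ 4 * M * (‖z - c‖ / r) ^ 2 := by
  have hr : 0 < r := pos_of_mem_ball hz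
  have h1 := norm_fderiv_le_of_bound hr hd hM
  have hM0 : 0 ≤ M := (norm_nonneg _).trans (hM c (mem_ball_self hr))
  have h2 := Complex.dist_le_mul_div_pow_of_mapsTo_ball_of_isLittleO
    (f := fun w => f w - fderiv ℂ f c (w - c)) (c := c) (z := z) (R₁ := r) (R₂ := 4 * M) (n := 1)
    (hd.sub (by fun_prop)) ?_ ?_ hz
  · rw [dist_eq_norm, dist_eq_norm] at h2
    simp only [sub_self, map_zero, sub_zero] at h2
    rwa [sub_right_comm]
  · intro y hy
    rw [mem_closedBall, dist_eq_norm]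
    simp only [sub_self, map_zero, sub_zero]
    have h3 : ‖fderiv ℂ f c (y - c)‖ ≤ 2 * M / r * r :=
      ((fderiv ℂ f c).le_opNorm _).trans
        (mul_le_mul h1 (mem_ball_iff_norm.1 hy).le (norm_nonneg _) (by positivity))
    rw [div_mul_cancel₀ _ hr.ne'] at h3
    have h4 := norm_sub_le (f y - fderiv ℂ f c (y - c)) (f c)
    have h5 := norm_sub_le (f y) (fderiv ℂ f c (y - c))
    linarith [hM y hy, hM c (mem_ball_self hr)]
  · have h3 := ((hd c (mem_ball_self hr)).differentiableAt (ball_mem_nhds c hr)).hasFDerivAt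
    have h4 := (hasFDerivAt_iff_isLittleO.1 h3).norm_right
    refine h4.congr' (Eventually.of_forall fun w => ?_) (Eventually.of_forall fun w => ?_)
    · simp only [sub_self, map_zero, sub_zero]; abel
    · simp

theorem differentiableAt_of_unif_limit [CompleteSpace F] {g : ℕ → E → F} {G : E → F} {x : E}
    {δ : ℝ} (hδ : 0 < δ) (hd : ∀ n, DifferentiableOn ℂ (g n) (ball x (2 * δ))) {ε : ℕ → ℝ}
    (hε : Tendsto ε atTop (𝓝 0)) (h : ∀ n, ∀ y ∈ ball x (2 * δ), ‖g n y - G y‖ ≤ ε n) :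
    DifferentiableAt ℂ G x := by
  have hsub : ∀ y ∈ ball x δ, ball y δ ⊆ ball x (2 * δ) := fun y hy =>
    ball_subset_ball' (by rw [mem_ball] at hy; linarith)
  have hda : ∀ n, ∀ y ∈ ball x δ, DifferentiableAt ℂ (g n) y := fun n y hy =>
    (hd n).differentiableAt (isOpen_ball.mem_nhds (hsub y hy (mem_ball_self hδ)))
  have hC : UniformCauchySeqOn (fun n => fderiv ℂ (g n)) atTop (ball x δ) := by
    rw [Metric.uniformCauchySeqOn_iff]
    intro η hη
    obtain ⟨N, hN⟩ := eventually_atTop.1 (hε.eventually (gt_mem_nhds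
      (show 0 < η * δ / 4 by positivity)))
    refine ⟨N, fun m hm n hn y hy => ?_⟩
    rw [dist_eq_norm, ← fderiv_sub (hda m y hy) (hda n y hy)]
    refine (norm_fderiv_le_of_bound (M := ε m + ε n) hδ
      (((hd m).sub (hd n)).mono (hsub y hy)) fun w hw => ?_).trans_lt ?_
    · have h1 := norm_sub_le (g m w - G w) (g n w - G w)
      rw [sub_sub_sub_cancel_right] at h1
      exact h1.trans (add_le_add (h m w (hsub y hy hw)) (h n w (hsub y hy hw)))
    · rw [div_lt_iff₀ hδ]
      linarith [hN m hm, hN n hn]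
  have hlim : ∀ y, ∃ L : E →L[ℂ] F, y ∈ ball x δ →
      Tendsto (fun n => fderiv ℂ (g n) y) atTop (𝓝 L) := by
    intro y
    by_cases hy : y ∈ ball x δ
    · obtain ⟨L, hL⟩ := cauchySeq_tendsto_of_complete (hC.cauchySeq hy)
      exact ⟨L, fun _ => hL⟩
    · exact ⟨0, fun h => absurd h hy⟩
  choose L hL using hlim
  refine (hasFDerivAt_of_tendstoUniformlyOn isOpen_ball (hC.tendstoUniformlyOn_of_tendsto hL)
    (fun n y hy => (hda n y hy).hasFDerivAt) (fun y hy => ?_) (mem_ball_self hδ)).differentiableAt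
  rw [tendsto_iff_norm_sub_tendsto_zero]
  exact squeeze_zero (fun _ => norm_nonneg _)
    (fun n => h n y (hsub y hy (mem_ball_self hδ))) hε

theorem exists_ball_bound {f : E → F} {U : Set E} (hU : IsOpen U) (hf : DifferentiableOn ℂ f U)
    {x : E} (hx : x ∈ U) : ∃ r M : ℝ, 0 < r ∧ ball x r ⊆ U ∧ ∀ y ∈ ball x r, ‖f y‖ ≤ M := by
  have h1 := (hf.differentiableAt (hU.mem_nhds hx)).continuousAt.norm.eventually
    (gt_mem_nhds (lt_add_one ‖f x‖))
  obtain ⟨r, hr, h2⟩ := Metric.mem_nhds_iff.1 (inter_mem (hU.mem_nhds hx) h1)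
  exact ⟨r, ‖f x‖ + 1, hr, fun y hy => (h2 hy).1, fun y hy => le_of_lt (h2 hy).2⟩

theorem differentiableOn_fderiv_apply [CompleteSpace F] {f : E → F} {U : Set E} (hU : IsOpen U)
    (hf : DifferentiableOn ℂ f U) (v : E) : DifferentiableOn ℂ (fun y => fderiv ℂ f y v) U := by
  intro x hx
  obtain ⟨r, M, hr, hrU, hM⟩ := exists_ball_bound hU hf hx
  obtain ⟨δ, hδ, rfl⟩ : ∃ δ, 0 < δ ∧ r = 3 * δ := ⟨r / 3, by positivity, by ring⟩
  have hv : 0 < ‖v‖ + 1 := by positivity
  let t : ℕ → ℝ := fun n => δ / (‖v‖ + 1) * (1 / ((n : ℝ) + 1))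
  have ht0 : ∀ n, 0 < t n := fun n => by positivity
  have ht1 : ∀ n, ‖(t n : ℂ) • v‖ < δ := by
    intro n
    rw [norm_smul, Complex.norm_real, Real.norm_of_nonneg (ht0 n).le]
    have h1 : t n ≤ δ / (‖v‖ + 1) := mul_le_of_le_one_right (by positivity)
      (by rw [div_le_one (by positivity)]; linarith [Nat.cast_nonneg (α := ℝ) n])
    calc t n * ‖v‖ ≤ δ / (‖v‖ + 1) * ‖v‖ := by gcongr
      _ < δ / (‖v‖ + 1) * (‖v‖ + 1) := by gcongr; linarith
      _ = δ := div_mul_cancel₀ _ hv.ne'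
  have hsub : ∀ y ∈ ball x (2 * δ), ball y δ ⊆ ball x (3 * δ) := fun y hy =>
    ball_subset_ball' (by rw [mem_ball] at hy; linarith)
  have hmem : ∀ n y, y + (t n : ℂ) • v ∈ ball y δ := fun n y => by
    rw [mem_ball_iff_norm, add_sub_cancel_left]; exact ht1 n
  refine (differentiableAt_of_unif_limit (g := fun n y => (t n : ℂ)⁻¹ • (f (y + (t n : ℂ) • v) - f y))
    hδ (fun n => ?_) (ε := fun n => 4 * M * (‖v‖ / δ) ^ 2 * t n) ?_
    (fun n y hy => ?_)).differentiableWithinAt
  · refine DifferentiableOn.const_smul (DifferentiableOn.sub ?_ ?_) _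
    · exact hf.comp (by fun_prop) fun y hy => hrU (hsub y hy (hmem n y))
    · exact hf.mono fun y hy => hrU (hsub y hy (mem_ball_self hδ))
  · have := (tendsto_one_div_add_atTop_nhds_zero_nat (𝕜 := ℝ)).const_mul (δ / (‖v‖ + 1))
      |>.const_mul (4 * M * (‖v‖ / δ) ^ 2)
    simpa only [mul_zero] using this
  · have h1 := norm_taylor_two_le (hf.mono ((hsub y hy).trans hrU))
      (fun w hw => hM w (hsub y hy hw)) (hmem n y)
    have h0 : (t n : ℂ) ≠ 0 := by exact_mod_cast (ht0 n).ne'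
    rw [add_sub_cancel_left, map_smul, norm_smul, Complex.norm_real,
      Real.norm_of_nonneg (ht0 n).le] at h1
    have e : (t n : ℂ)⁻¹ • (f (y + (t n : ℂ) • v) - f y) - fderiv ℂ f y v =
        (t n : ℂ)⁻¹ • (f (y + (t n : ℂ) • v) - f y - (t n : ℂ) • fderiv ℂ f y v) := by
      rw [smul_sub _ _ (_ • _), smul_smul, inv_mul_cancel₀ h0, one_smul]
    rw [e, norm_smul, norm_inv, Complex.norm_real, Real.norm_of_nonneg (ht0 n).le,
      inv_mul_le_iff₀ (ht0 n)]
    refine h1.trans (le_of_eq ?_)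
    ring

theorem contDiffOn_of_differentiableOn [FiniteDimensional ℂ E] [CompleteSpace F] {U : Set E}
    (hU : IsOpen U) (n : ℕ) : ∀ {f : E → F}, DifferentiableOn ℂ f U → ContDiffOn ℂ n f U := by
  induction n with
  | zero => exact fun hf => contDiffOn_zero.2 hf.continuousOn
  | succ n ih =>
    intro f hf
    rw [Nat.cast_succ, contDiffOn_succ_iff_fderiv_of_isOpen hU]
    refine ⟨hf, by simp, contDiffOn_clm_apply.2 fun v => ?_⟩
    exact ih (differentiableOn_fderiv_apply hU hf v)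

theorem norm_iteratedFDeriv_le_of_bound {E₀ : Type} [NormedAddCommGroup E₀] [NormedSpace ℂ E₀]
    [FiniteDimensional ℂ E₀] {δ : ℝ} (hδ : 0 < δ) (x : E₀) (n : ℕ) :
    ∀ {G : Type v} [NormedAddCommGroup G] [NormedSpace ℂ G] [CompleteSpace G] {f : E₀ → G}
      {M : ℝ}, DifferentiableOn ℂ f (ball x ((n + 1) * δ)) →
      (∀ y ∈ ball x ((n + 1) * δ), ‖f y‖ ≤ M) → ‖iteratedFDeriv ℂ n f x‖ ≤ M * (2 / δ) ^ n := by
  induction n with
  | zero =>
    intro G _ _ _ f M _ hM
    rw [norm_iteratedFDeriv_zero, pow_zero, mul_one]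
    exact hM x (mem_ball_self (by positivity))
  | succ n ih =>
    intro G _ _ _ f M hd hM
    have hsub : ∀ y ∈ ball x ((n + 1) * δ), ball y δ ⊆ ball x (((n + 1 : ℕ) + 1) * δ) :=
      fun y hy => ball_subset_ball' (by rw [mem_ball] at hy; push_cast; linarith)
    have h1 : DifferentiableOn ℂ (fderiv ℂ f) (ball x (((n + 1 : ℕ) + 1) * δ)) :=
      ((contDiffOn_of_differentiableOn isOpen_ball 2 hd).fderiv_of_isOpen (m := 1) isOpen_ball
        (by norm_num)).differentiableOn (by norm_num)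
    have h2 := ih (h1.mono fun y hy => hsub y hy (mem_ball_self hδ)) (M := 2 * M / δ)
      fun y hy => norm_fderiv_le_of_bound hδ (hd.mono (hsub y hy)) fun w hw => hM w (hsub y hy hw)
    rw [norm_iteratedFDeriv_fderiv] at h2
    refine h2.trans (le_of_eq ?_)
    ring

theorem iteratedDeriv_line [FiniteDimensional ℂ E] [CompleteSpace F] {f : E → F} {U : Set E}
    (hU : IsOpen U) (hf : DifferentiableOn ℂ f U) (h0 : (0 : E) ∈ U) (h : E) (n : ℕ) :
    iteratedDeriv n (fun ζ : ℂ => f (ζ • h)) 0 = iteratedFDeriv ℂ n f 0 fun _ => h := by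
  let g : ℂ →L[ℂ] E := ContinuousLinearMap.toSpanSingleton ℂ h
  have hg : IsOpen (g ⁻¹' U) := hU.preimage g.continuous
  have hg0 : g 0 ∈ U := by rwa [map_zero]
  have h1 := g.iteratedFDerivWithin_comp_right (contDiffOn_of_differentiableOn hU n hf)
    hU.uniqueDiffOn hg.uniqueDiffOn hg0 le_rfl
  rw [iteratedFDerivWithin_of_isOpen n hg hg0, iteratedFDerivWithin_of_isOpen n hU hg0,
    map_zero] at h1
  rw [iteratedDeriv_eq_iteratedFDeriv, show (fun ζ : ℂ => f (ζ • h)) = f ∘ g from rfl, h1]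
  simp [g]

theorem analyticAt_zero_aux {E₀ : Type} [NormedAddCommGroup E₀] [NormedSpace ℂ E₀]
    [FiniteDimensional ℂ E₀] [CompleteSpace F] {f : E₀ → F} {U : Set E₀} (hU : IsOpen U)
    (hf : DifferentiableOn ℂ f U) (h0 : (0 : E₀) ∈ U) : AnalyticAt ℂ f 0 := by
  obtain ⟨r, M, hr, hrU, hM⟩ := exists_ball_bound hU hf h0
  have hM0 : 0 ≤ M := (norm_nonneg _).trans (hM 0 (mem_ball_self hr))
  have he : 1 ≤ Real.exp 1 := Real.one_le_exp zero_le_one
  let p : FormalMultilinearSeries ℂ E₀ F := fun n => (n.factorial : ℂ)⁻¹ • iteratedFDeriv ℂ n f 0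
  let ρ : NNReal := ⟨r / (2 * Real.exp 1), by positivity⟩
  have hρ : (ρ : ℝ) = r / (2 * Real.exp 1) := rfl
  refine ⟨p, ρ, ?_, ?_, fun {y} hy => ?_⟩
  · refine p.le_radius_of_bound (M * Real.exp 1) fun n => ?_
    have hn : (0 : ℝ) < n + 1 := by positivity
    have h1 := norm_iteratedFDeriv_le_of_bound (δ := r / (n + 1)) (by positivity) (0 : E₀) n
      (f := f) (M := M) (by rw [mul_div_cancel₀ _ hn.ne']; exact hf.mono hrU)
      (by rw [mul_div_cancel₀ _ hn.ne']; exact hM)
    have h2 := Real.pow_div_factorial_le_exp (n + 1 : ℝ) hn.le n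
    have h3 : Real.exp (n + 1) = Real.exp 1 ^ n * Real.exp 1 := by
      rw [Real.exp_add, ← Real.exp_nat_mul, mul_one]
    have hfac : (0 : ℝ) < n.factorial := by positivity
    calc ‖p n‖ * (ρ : ℝ) ^ n
        ≤ ((n.factorial : ℝ)⁻¹ * (M * (2 / (r / (n + 1))) ^ n)) * (ρ : ℝ) ^ n := by
          simp only [p, norm_smul, norm_inv, Complex.norm_natCast]
          gcongr
      _ = M * (((n + 1 : ℝ) ^ n / n.factorial) / Real.exp 1 ^ n) := by
          rw [hρ, mul_assoc, mul_assoc, ← mul_pow,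
            show 2 / (r / (n + 1)) * (r / (2 * Real.exp 1)) = (n + 1) / Real.exp 1 by field_simp,
            div_pow]
          ring
      _ ≤ M * Real.exp 1 := by
          gcongr
          rw [div_le_iff₀ (by positivity), mul_comm, ← h3]
          exact h2
  · rw [ENNReal.coe_pos, ← NNReal.coe_pos, hρ]; positivity
  · rw [Metric.eball_coe, mem_ball_zero_iff, hρ, lt_div_iff₀ (by positivity)] at hy
    have h1 : DifferentiableOn ℂ (fun ζ : ℂ => f (ζ • y)) (ball 0 2) := by
      refine hf.comp (by fun_prop) fun ζ hζ => hrU ?_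
      rw [mem_ball_zero_iff] at hζ ⊢
      rw [norm_smul]
      nlinarith [norm_nonneg y, norm_nonneg ζ]
    have h2 := Complex.hasSum_taylorSeries_on_ball h1 (z := 1) (by simp)
    simp only [iteratedDeriv_line hU hf h0, sub_zero, one_pow, one_smul] at h2
    simpa [p] using h2

end Aux

variable {E F : Type*} [NormedAddCommGroup E] [NormedSpace ℂ E] [FiniteDimensional ℂ E]
  [NormedAddCommGroup F] [NormedSpace ℂ F] [FiniteDimensional ℂ F]

/- HINTS. (1) For `x` in `U`, small `v`: `fderiv f x v` is the circle average of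
`θ ↦ e^{-iθ} f (x + e^{iθ} v)` (one variable Cauchy formula for `ζ ↦ f (x + ζ • v)`), hence
`x ↦ fderiv f x v` is continuous on `U`, so `fderiv f` is continuous on `U` (finite dimension,
`continuousOn_clm_apply`); differentiate the average under the integral sign
(`intervalIntegral.hasFDerivAt_integral_of_dominated_of_fderiv_le`, bound by compactness): so
`x ↦ fderiv f x v` is again differentiable on `U`. Induction with `contDiffOn_succ_iff_fderiv_apply`
(or `contDiffOn_clm_apply`) gives `ContDiffOn ℂ n f U` for all `n`.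
(2) Cauchy estimate: `f` differentiable on `ball x r`, bounded by `M` gives
`‖iteratedFDeriv ℂ n f x‖ ≤ M * (n / r) ^ n` (induction on `n`, apply it to `y ↦ fderiv f y v` on
the ball of radius `r n / (n+1)`, where it is bounded by `M (n+1) / r ‖v‖`;
`iteratedFDeriv_succ_apply_right`, `Complex.norm_deriv_le_of_forall_mem_sphere_norm_le`).
(3) With `p n = (n !)⁻¹ • iteratedFDeriv ℂ n f x` and `n ^ n ≤ e ^ n n !` the radius is positive;
the sum is the one variable Taylor series of `ζ ↦ f (x + ζ • h)` at `ζ = 1`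
(`Complex.hasSum_taylorSeries_on_ball`). Any other route is fine. -/
theorem osgood {f : E → F} {U : Set E} (hU : IsOpen U) (hf : DifferentiableOn ℂ f U) :
    AnalyticOnNhd ℂ f U := by
  intro x hx
  have : CompleteSpace F := FiniteDimensional.complete ℂ F
  let e : E ≃L[ℂ] (Fin (Module.finrank ℂ E) → ℂ) :=
    ContinuousLinearEquiv.ofFinrankEq (Module.finrank_fin_fun ℂ).symm
  have h1 : AnalyticAt ℂ (fun w => f (x + e.symm w)) 0 :=
    analyticAt_zero_aux (U := (fun w => x + e.symm w) ⁻¹' U) (hU.preimage (by fun_prop))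
      (hf.comp (by fun_prop) fun w hw => hw) (by simpa using hx)
  have h2 : AnalyticAt ℂ (fun y => e (y - x)) x :=
    (e.toContinuousLinearMap.analyticAt _).comp (analyticAt_id.sub analyticAt_const)
  have h3 := AnalyticAt.comp_of_eq h1 h2 (by simp)
  refine h3.congr (Eventually.of_forall fun y => ?_)
  simp

theorem analyticAt_of_eventually_differentiableAt {f : E → F} {c : E}
    (h : ∀ᶠ x in 𝓝 c, DifferentiableAt ℂ f x) : AnalyticAt ℂ f c := by
  obtain ⟨U, hU, hUo, hc⟩ := mem_nhds_iff.1 h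
  exact osgood hUo (fun x hx => (hU hx).differentiableWithinAt) c hc

end Pool.Agent.Lib.SCV
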